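import Pool.Agent.H558Z.Alt.Main

/-!
# Cyclic orderings of bipartite graphs without alternating edges: the problem is NP-complete

The reduction is from 3SAT, through constraints of the form : the legs `p, q` do not alternate with
the legs `r, s`.  Every leg is a star whose root is joined to all hubs; the first hub forces every
star to form a block of the cyclic order.  Every constraint has two hubs, the neighbourhoods of
hubs of different constraints are nested, and the two hubs of a constraint see two slots each.
-/

namespace Pool.Agent.Results.MP_7399ce_lc.ANPComplete

open Pool.Agent.NPC Pool.Agent.H558Z.Alt

/-- The problem is in `NP`; every language in `NP` is reduced to it by a polynomial-time many-one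
reduction all of whose outputs are bipartite graphs; and a polynomial-time algorithm for bipartite
graphs exists if and only if `P = NP`. -/
theorem result :
    InNPP GoodOrdering ∧
    (∀ L : Set (List Bool), InNP L → ∃ f : List Bool → List Bool, PolyTime f ∧
      ∀ w, ∃ (n : ℕ) (G : SimpleGraph (Fin n)), f w = input G ∧ G.IsBipartite ∧
        (w ∈ L ↔ HasGoodOrdering G)) ∧
    (SolvableOnBipartite ↔ PEqNP) :=
  ⟨inNPP_good, hard, pEqNP_of_solvable, solvable_of⟩

end Pool.Agent.Results.MP_7399ce_lc.ANPComplete
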